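import Pool.Agent.Q179.SP.Sharp

/-!
# How many knots with a given shadow are separated by Vassiliev invariants of order two?

Definitions of the starting library: `GaussWord N` (the shadow of a knot diagram with `N` crossings, given by the
order in which the crossings are passed; planarity is not required), `Crosses G i j` (the chords of the crossings
`i` and `j` cross), `fPoly G w` (the normalised Kauffman bracket of the diagram with shadow `G` and signs `w`), all
in `Pool.Agent.H832R2.JR.Defs`; `dia G e w` (`Pool.Agent.W642.RV.Defs`: the knot diagram with Gauss word `G`,
local pictures `e` of the crossings and signs `w` of the crossings); `Separated d X Y` (`Pool.Agent.H832R3.VJ.Defs`: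
some integer valued Vassiliev invariant of oriented links of order at most `d` has different values on `X` and
`Y`); `moment 2 F = ∑ k ^ 2 a_k` for a Laurent polynomial `F = ∑ a_k A ^ k`.  `PlaneCriterion G`
(`Pool.Agent.Q179.HS.Planar`): the combinatorial criterion for the Gauss words of closed curves in the plane.

New definitions (`Pool.Agent.Q179.SP.Knots`): `inter G` is the interlacement graph: the vertices are the crossings,
and two crossings are adjacent if their chords cross.  A shadow without nugatory crossings is prime exactly if
this graph is connected; in general its components with at least two vertices are the sets of crossings of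
the prime factors.  `halves G` is the sum of the integer parts of `n_i / 2`, where `n_i` are the numbers of
vertices of the components.

Proof.  The second moment of the bracket, an invariant of order two, is a constant minus `12` times the form
`∑ w_i w_j` over the ordered pairs of crossing chords, so that it determines the number of the edges of the
interlacement graph between the positive and the negative crossings.  Number the vertices so that every
vertex, except one in each component, has a neighbour with a smaller number.  Insert the vertices in the order
of the numbers into a linear order, each of them at one of the two ends.  The choices of the ends can be made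
in the opposite order so that only the exceptional vertices have the same number of neighbours before and
after them.  If one changes the signs of the vertices with more neighbours after them than before them, one
after the other, the number of the edges of the cut increases strictly.  In each component this or the
opposite order gives at least the integer part of `n_i / 2` such vertices.
-/

set_option autoImplicit false

namespace Pool.Agent.Results.MP_31fd3b_gt.OneShadow

open Pool.Agent.H832R2.JR Pool.Agent.H832R3.VJ Pool.Agent.W642.RV Pool.Agent.Q179.HS
  Pool.Agent.Q179.SP

/-- * Let `G` be the shadow (with local pictures `e`) of a knot diagram, and let `n_i` be the numbers of crossings of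
  its prime factors.  At least `1 + ∑ ⌊n_i / 2⌋` of the choices of the crossings give knots which are pairwise
  separated by Vassiliev invariants of order at most `2`.
* For a prime shadow with `N` crossings these are at least `⌊N / 2⌋ + 1` knots.
* For a shadow without nugatory crossings (every chord crosses another one) with `N` crossings these are at
  least `N / 3 + 1` knots.
* The second bound is sharp for the second moment of the bracket: for the shadow of the torus knot
  `T(2, 2 k + 1)`, all of whose chords cross each other, it has exactly `k + 1` values.
* So is the third one: for the shadow of the connected sum of `k + 1` trefoils it has exactly `k + 2` values. -/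
theorem result :
    (∀ (N : ℕ) (G : GaussWord N) (e : Fin N → Bool), ∃ T : Finset (Fin N → Bool),
      halves G + 1 ≤ T.card ∧
        ∀ w ∈ T, ∀ w' ∈ T, w ≠ w' → Separated 2 (dia G e w) (dia G e w')) ∧
    (∀ (N : ℕ) (G : GaussWord N) (e : Fin N → Bool), (inter G).Connected →
      ∃ T : Finset (Fin N → Bool), N / 2 + 1 ≤ T.card ∧
        ∀ w ∈ T, ∀ w' ∈ T, w ≠ w' → Separated 2 (dia G e w) (dia G e w')) ∧
    (∀ (N : ℕ) (G : GaussWord N) (e : Fin N → Bool), (∀ i, ∃ j, Crosses G i j) →
      ∃ T : Finset (Fin N → Bool), N + 3 ≤ 3 * T.card ∧
        ∀ w ∈ T, ∀ w' ∈ T, w ≠ w' → Separated 2 (dia G e w) (dia G e w')) ∧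
    (∀ k : ℕ, ∃ G : GaussWord (2 * k + 1), PlaneCriterion G ∧ (∀ i j, i ≠ j → Crosses G i j) ∧
      Nat.card (Set.range fun w : Fin (2 * k + 1) → Bool => moment 2 (fPoly G w)) = k + 1) ∧
    (∀ k : ℕ, ∃ G : GaussWord ((k + 1) * 3), PlaneCriterion G ∧ (∀ i, ∃ j, Crosses G i j) ∧
      Nat.card (Set.range fun w : Fin ((k + 1) * 3) → Bool => moment 2 (fPoly G w)) = k + 2) := by
  have hm : ∀ (N : ℕ) (G : GaussWord N), (fun w : Fin N → Bool => moment 2 (fPoly G w)) = mom G := by
    intro N G
    funext w
    exact (rho_moment (fPoly G w)).symm
  refine ⟨fun N G e => separated_family G e, fun N G e h => ?_, fun N G e h => ?_, fun k => ?_,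
    fun k => ?_⟩
  · obtain ⟨T, hT, hT'⟩ := separated_family G e
    rw [halves_prime G h] at hT
    exact ⟨T, hT, hT'⟩
  · obtain ⟨T, hT, hT'⟩ := separated_family G e
    have := halves_third G h
    exact ⟨T, by omega, hT'⟩
  · refine ⟨torusWord (2 * k + 1), torus_plane k, fun i j h => (torus_crosses _ i j).2 h, ?_⟩
    rw [hm]
    exact torus_values k
  · refine ⟨trefoils (k + 1), tref_plane (k + 1), tref_all (k + 1), ?_⟩
    rw [hm]
    exact tref_values (k + 1) (Nat.succ_pos k)

end Pool.Agent.Results.MP_31fd3b_gt.OneShadow
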