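import Pool.Agent.Q99.ET.Both

/-!
# Vassiliev invariants of bounded order see the twist numbers up to order, signs and bounded errors

Diagrams: `Pool.Agent.H891R2.Jones.Diagram` (`Crossing`, `Diagram`, `Diagram.IsClosed`),
`Pool.Agent.H891R2.MT.Defs` (`UDiagram`; `Orients D U`: `D` is the unoriented diagram `U` with
directions) and `Pool.Agent.H891R2.SI.Defs`:

* `Sites k`: a diagram `O` with `k` open boxes (sites), each with four corners; planarity is not
  required; `O.Connected`: the diagram is connected (each site being one piece);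
* `O.fill n`, `n ∈ ℤ^k`: the site `e` is filled with two vertical strands twisted around each other, a
  row of `|n e|` crossings of the kind given by the sign of `n e`;
* `O.cut`: every site is filled with a cup and a cap, that is, all sites are cut through;
* `det U`: the determinant of a diagram, the absolute value of its bracket at `A = e^{πi/4}`.

Vassiliev invariants: `Pool.Agent.H832R3.VJ.Defs` (`Dia`: an oriented diagram with the finite set of
its marked points; `Separated d X Y`: some integer valued Vassiliev invariant of oriented links of order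
at most `d` has different values on `X` and `Y`).
`ordP k c k' c' = 2^k (6 c + 8 k + 4 k' + 1) + 2^k' (6 c' + 8 k' + 4 k + 1)`.

Proof: two links which are not separated have the same normalised bracket; then all pairs of links which
are obtained by changing the twist numbers along vectors `y`, `y'` with the near relations of `n` and `n'`
have the same normalised brackets up to units (rigidity for pairs). Comparing the leading coefficients at
`A → exp(π i/4)`, `(-A^{-4})^t → z`, gives
`det O.cut * ∏ |z^(y e) - 1| = det O'.cut * ∏ |z^(y' e) - 1|` on the unit circle, and the zeros at the roots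
of unity show that the numbers `|y e|` and `|y' e|` agree up to the order. By Dirichlet's theorem there are
such vectors which are close to multiples of `n` and `n'`.
-/

set_option autoImplicit false

namespace Pool.Agent.Results.MP_31fd3b_gt.TwistNumbersUpToSign

open Finset LaurentPolynomial Pool.Agent.H891R2.Jones Pool.Agent.H891R2.MT Pool.Agent.H891R2.SI
  Pool.Agent.H832R3.VJ
open Pool.Agent.Q99.ET

/-- half of the bound for the errors; at least this number of crossings is asked for in every site -/
def err (k c k' c' : ℕ) : ℕ := 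
  2 * (2 * (k + k' + 1) + 1) ^ (k + k') * (2 * (c + c') + 2 * (k + k') + 1)

/-- the vectors which agree with `n` up to the order, signs and errors less than `E` -/
theorem count {k k' : ℕ} (n : Fin k → ℤ) (E : ℕ) : 
    {n' : Fin k' → ℤ | ∃ σ : Fin k ≃ Fin k', ∀ e, |n e - n' (σ e)| < E ∨ |n e + n' (σ e)| < E}.Finite ∧ 
    {n' : Fin k' → ℤ | ∃ σ : Fin k ≃ Fin k', ∀ e, |n e - n' (σ e)| < E ∨ |n e + n' (σ e)| < E}.ncard ≤ 
      k.factorial * (4 * E) ^ k := by
  classical
  let F : (Fin k ≃ Fin k') → Finset (Fin k' → ℤ) := fun σ => Fintype.piFinset fun e' => 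
    Finset.Ioo (n (σ.symm e') - E) (n (σ.symm e') + E) ∪ 
      Finset.Ioo (-n (σ.symm e') - E) (-n (σ.symm e') + E)
  have hsub : {n' : Fin k' → ℤ | ∃ σ : Fin k ≃ Fin k', ∀ e, |n e - n' (σ e)| < E ∨ 
      |n e + n' (σ e)| < E} ⊆ ((Finset.univ.biUnion F : Finset (Fin k' → ℤ)) : Set (Fin k' → ℤ)) := by
    rintro n' ⟨σ, hσ⟩
    rw [Finset.mem_coe, Finset.mem_biUnion]
    refine ⟨σ, Finset.mem_univ _, ?_⟩
    rw [Fintype.mem_piFinset]
    intro e'
    have h1 := hσ (σ.symm e')
    rw [Equiv.apply_symm_apply] at h1
    rw [Finset.mem_union, Finset.mem_Ioo, Finset.mem_Ioo]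
    rcases h1 with h1 | h1
    · rw [abs_lt] at h1
      left
      constructor <;> linarith [h1.1, h1.2]
    · rw [abs_lt] at h1
      right
      constructor <;> linarith [h1.1, h1.2]
  refine ⟨(Finset.finite_toSet _).subset hsub, ?_⟩
  refine (Set.ncard_le_ncard hsub (Finset.finite_toSet _)).trans ?_
  rw [Set.ncard_coe_finset]
  refine Finset.card_biUnion_le.trans ?_
  have hF : ∀ σ : Fin k ≃ Fin k', (F σ).card ≤ (4 * E) ^ k := by
    intro σ
    have hkk : k = k' := by
      have := Fintype.card_congr σ
      simpa using this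
    subst hkk
    show (Fintype.piFinset _).card ≤ _
    rw [Fintype.card_piFinset]
    refine (Finset.prod_le_prod' fun e' _ => ?_ : _ ≤ ∏ _e : Fin k, (4 * E)).trans (le_of_eq ?_)
    · refine (Finset.card_union_le _ _).trans ?_
      rw [Int.card_Ioo, Int.card_Ioo]
      omega
    · rw [Finset.prod_const, Finset.card_univ, Fintype.card_fin]
  refine (Finset.sum_le_sum fun σ _ => hF σ).trans ?_
  rw [Finset.sum_const, smul_eq_mul]
  apply Nat.mul_le_mul_right
  rw [Finset.card_univ]
  by_cases hkk : k = k'
  · subst hkk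
    rw [Fintype.card_perm, Fintype.card_fin]
  · have : IsEmpty (Fin k ≃ Fin k') := ⟨fun σ => hkk (by simpa using Fintype.card_congr σ)⟩
    rw [Fintype.card_eq_zero]
    exact Nat.zero_le _

/-- Let `O`, `O'` be connected diagrams with `c`, `c'` crossings and with `k`, `k' ≥ 1` sites, such that
the links `O.cut`, `O'.cut` have nonzero determinants (for classical diagrams: for instance, such that
they are knots), let `E = err k c k' c'`, and let `n ∈ ℤ^k` have `|n e| ≥ E` for all `e`, with arbitrary
signs and without any other condition.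

* If `n' ∈ ℤ^k'` has `|n' e| ≥ E` for all `e` and the links `O.fill n` and `O'.fill n'`, with any
  directions, are not separated by the Vassiliev invariants of order at most `ordP k c k' c'`, then
  `k = k'`, the links `O.cut` and `O'.cut` have the same determinant, and up to the order and signs the
  twist numbers `n e` and `n' e` differ by less than `2 E`.
* For given `n` there are at most `k! (8 E)^k` such vectors `n'`. -/
theorem result (k k' : ℕ) (hk : 0 < k) (hk' : 0 < k') (O : Sites k) (O' : Sites k') (hO : O.Connected) 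
    (hO' : O'.Connected) (hdet : det O.cut ≠ 0) (hdet' : det O'.cut ≠ 0) (E : ℕ) 
    (hE : E = err k O.crossings.length k' O'.crossings.length)
    (n : Fin k → ℤ) (hn : ∀ e, (E : ℤ) ≤ |n e|)
    (D : Diagram (O.P ⊕ Ribbon.Pt n)) (hD : Orients D (O.fill n)) (_ : D.IsClosed) :
    (∀ n' : Fin k' → ℤ, (∀ e, (E : ℤ) ≤ |n' e|) → 
      ∀ D' : Diagram (O'.P ⊕ Ribbon.Pt n'), Orients D' (O'.fill n') → D'.IsClosed → 
      ¬ Separated (ordP k O.crossings.length k' O'.crossings.length) ⟨_, inferInstance, D⟩ 
        ⟨_, inferInstance, D'⟩ → 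
      det O.cut = det O'.cut ∧ ∃ σ : Fin k ≃ Fin k', ∀ e, 
        |n e - n' (σ e)| < 2 * E ∨ |n e + n' (σ e)| < 2 * E) ∧
    {n' : Fin k' → ℤ | (∀ e, (E : ℤ) ≤ |n' e|) ∧ 
      ∃ D' : Diagram (O'.P ⊕ Ribbon.Pt n'), Orients D' (O'.fill n') ∧ D'.IsClosed ∧ 
        ¬ Separated (ordP k O.crossings.length k' O'.crossings.length) ⟨_, inferInstance, D⟩ 
          ⟨_, inferInstance, D'⟩}.ncard ≤ k.factorial * (8 * E) ^ k := by
  have hE' : (E : ℤ) = 2 * (2 * (k + k' + 1) + 1) ^ (k + k') * 
      (2 * (O.crossings.length + O'.crossings.length) + 2 * (k + k') + 1) := by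
    rw [hE]
    unfold err
    push_cast
    ring
  have hE2 : (2 * E : ℤ) = 4 * (2 * (k + k' + 1) + 1) ^ (k + k') * 
      (2 * (O.crossings.length + O'.crossings.length) + 2 * (k + k') + 1) := by
    rw [hE']
    ring
  have main : ∀ n' : Fin k' → ℤ, (∀ e, (E : ℤ) ≤ |n' e|) → 
      ∀ D' : Diagram (O'.P ⊕ Ribbon.Pt n'), Orients D' (O'.fill n') → D'.IsClosed → 
      ¬ Separated (ordP k O.crossings.length k' O'.crossings.length) ⟨_, inferInstance, D⟩ 
        ⟨_, inferInstance, D'⟩ → 
      det O.cut = det O'.cut ∧ ∃ σ : Fin k ≃ Fin k', ∀ e, 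
        |n e - n' (σ e)| < 2 * E ∨ |n e + n' (σ e)| < 2 * E := by
    intro n' hn' D' hD' _ hs
    have heq : D.fPoly = D'.fPoly := by
      by_contra hne
      exact hs (sep_pair O hk hO O' hk' hO' n n' D hD D' hD' hne)
    have h1 := twist_numbers hk hk' O O' hO hO' hdet hdet' n n' (fun e => by rw [← hE']; exact hn e) 
      (fun e => by rw [← hE']; exact hn' e) D hD D' hD' heq
    rwa [← hE2] at h1
  refine ⟨main, ?_⟩
  obtain ⟨hfin, hcard⟩ := count (k' := k') n (2 * E)
  have h8 : 4 * (2 * E) = 8 * E := by ring
  rw [h8] at hcard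
  refine le_trans (Set.ncard_le_ncard ?_ hfin) hcard
  rintro n' ⟨hn', D', hD', hc', hs⟩
  obtain ⟨_, σ, hσ⟩ := main n' hn' D' hD' hc' hs
  refine ⟨σ, fun e => ?_⟩
  push_cast
  exact hσ e

end Pool.Agent.Results.MP_31fd3b_gt.TwistNumbersUpToSign
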