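import Pool.Agent.Q99.ET.Pair3

/-!
# Vassiliev invariants of bounded order see the twist rank of highly twisted links

`O : Sites k` is a link diagram (planar or not) with `k` open boxes and `c = O.crossings.length` crossings
outside them; `O.fill n` is the diagram in which the box `e` is filled with a row of `|n e|` crossings of
the kind given by the sign of `n e` (two vertical strands twisted around each other); `O.cut`: all boxes
are cut (a cap and a cup without crossings). `pcs O R` is the number of connected pieces of the diagram in
which exactly the boxes of `R` are cut, and `cutRank O R = |R| + 1 - pcs O R`, the rank function of a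
matroid. For the graph `Γ` whose vertices are the pieces of `O.cut` and whose edges are the boxes,
`cutRank O univ` is the first Betti number of `Γ`.

`Good O J`: the diagram is connected and closed, the connected pieces of `O.cut` have nonzero
determinants (the bracket of `O.cut` is not divisible by `(-A^2-A^{-2})^q` for the number `q` of its
pieces), the diagram remains connected when any two boxes of `J` are cut, and the boxes outside `J` join
the pieces of `O.cut` without cycles (no condition for `J = univ`). `SPred r J`: `J` can be reduced to the
empty set by deleting coloops, deleting one of two parallel elements and contracting one of two elements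
in series, that is, the matroid is series-parallel.

Vassiliev invariants: `Pool.Agent.H832R3.VJ.Defs` (`Dia`: an oriented diagram with the finite set of
its marked points; `Separated d X Y`: some integer valued Vassiliev invariant of oriented links of order
at most `d` has different values on `X` and `Y`).
`ordP k c k' c' = 2^k (6 c + 8 k + 4 k' + 1) + 2^k' (6 c' + 8 k' + 4 k + 1)`.

Proof: if the two normalised brackets are equal, then they remain equal (up to units) when the twist
numbers of both links are changed along any vectors which satisfy all near relations between the partial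
sums of the twist numbers of the two links (rigidity for pairs). Dirichlet's theorem gives such vectors
which are not zero exactly on `J` in the first link and zero outside `J'` in the second. In the limit
`A → exp(π i/4)` the first bracket, multiplied by the power of `-A^2-A^{-2}` with exponent `cutRank O J`,
tends to a nonzero multiple of the generating function of the sets of full rank, the second one to zero.
-/

set_option autoImplicit false

namespace Pool.Agent.Results.MP_31fd3b_gt.TwistRank

open Finset LaurentPolynomial Pool.Agent.H891R2.Jones Pool.Agent.H891R2.MT Pool.Agent.H891R2.SI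
  Pool.Agent.H832R3.VJ
open Pool.Agent.Q99.ET

/-- the bound for the numbers of crossings in the highly twisted boxes -/
def bound (k c k' c' B0 : ℕ) : ℕ := 
  2 * (2 * (k + k' + 1) + 1) ^ (k + k') * (2 * (c + c') + 2 * (k + k') + 1 + B0)

theorem result {k k' : ℕ} (O : Sites k) (J : Finset (Fin k)) (hO : Good O J) (O' : Sites k') 
    (hk' : 0 < k') (hO' : O'.Connected) (J' : Finset (Fin k')) (n : Fin k → ℤ) (n' : Fin k' → ℤ)
    (D : Diagram (O.P ⊕ Ribbon.Pt n)) (hD : Orients D (O.fill n)) (_ : D.IsClosed)
    (D' : Diagram (O'.P ⊕ Ribbon.Pt n')) (hD' : Orients D' (O'.fill n')) (_ : D'.IsClosed) :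
    -- (1) Let `J` be series-parallel, with many crossings of any sign in every box of `J` and at most `B0`
    -- in the others; the second diagram is arbitrary, with at most `B0` crossings in the boxes outside `J'`
    -- and any numbers of crossings in the boxes of `J'`. If the rank of `J'` is less than the rank of `J`,
    -- the links have different Jones polynomials and are separated in bounded order.
    (∀ B0 : ℕ, SPred (cutRank O) J → cutRank O' J' < cutRank O J → 
      (∀ e ∈ J, (bound k O.crossings.length k' O'.crossings.length B0 : ℤ) ≤ |n e|) → 
      (∀ e ∉ J, |n e| ≤ B0) → (∀ e ∉ J', |n' e| ≤ B0) → 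
      D.fPoly ≠ D'.fPoly ∧ Separated (ordP k O.crossings.length k' O'.crossings.length) 
        ⟨_, inferInstance, D⟩ ⟨_, inferInstance, D'⟩) ∧
    -- (2) In particular: two such links with many crossings in the boxes of `J` and of `J'`, both
    -- series-parallel, which are not separated in this order have the same rank.
    (∀ B0 : ℕ, Good O' J' → SPred (cutRank O) J → SPred (cutRank O') J' → 
      (∀ e ∈ J, (bound k O.crossings.length k' O'.crossings.length B0 : ℤ) ≤ |n e|) → 
      (∀ e ∉ J, |n e| ≤ B0) → 
      (∀ e ∈ J', (bound k O.crossings.length k' O'.crossings.length B0 : ℤ) ≤ |n' e|) → 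
      (∀ e ∉ J', |n' e| ≤ B0) → 
      (D.fPoly = D'.fPoly ∨ ¬ Separated (ordP k O.crossings.length k' O'.crossings.length) 
        ⟨_, inferInstance, D⟩ ⟨_, inferInstance, D'⟩) → 
      cutRank O J = cutRank O' J') ∧
    -- (3) All matroids: twist numbers near multiples of one large number `m`, odd multiples exactly on `J`
    -- and on `J'`.
    (∀ (m B0 : ℕ) (j : Fin k → ℤ) (j' : Fin k' → ℤ), cutRank O' J' < cutRank O J → 
      2 * (B0 * (k + k') + (2 * (O.crossings.length + O'.crossings.length) + 2 * (k + k') + 1)) < m → 
      (∀ e, |n e - m * j e| ≤ B0) → (∀ e, |n' e - m * j' e| ≤ B0) → 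
      (∀ e, Odd (j e) ↔ e ∈ J) → (∀ e, Odd (j' e) ↔ e ∈ J') → 
      D.fPoly ≠ D'.fPoly ∧ Separated (ordP k O.crossings.length k' O'.crossings.length) 
        ⟨_, inferInstance, D⟩ ⟨_, inferInstance, D'⟩) := by
  have key : D.fPoly ≠ D'.fPoly → 
      D.fPoly ≠ D'.fPoly ∧ Separated (ordP k O.crossings.length k' O'.crossings.length) 
        ⟨_, inferInstance, D⟩ ⟨_, inferInstance, D'⟩ := fun h => 
    ⟨h, sep_pair O hO.pos hO.conn O' hk' hO' n n' D hD D' hD' h⟩
  have hb : ∀ B0 : ℕ, (bound k O.crossings.length k' O'.crossings.length B0 : ℤ) = 
      2 * (2 * (k + k' + 1) + 1) ^ (k + k') * 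
        (2 * (O.crossings.length + O'.crossings.length) + 2 * (k + k') + 1 + B0) := by
    intro B0
    unfold bound
    push_cast
    ring
  refine ⟨fun B0 hsp hr hn hB hB' => key ?_, fun B0 hG hsp hsp' hn hB hn' hB' hns => ?_, 
    fun m B0 j j' hr hm hn hn' hj hj' => key ?_⟩
  · exact hO.pair_sp hsp O' hk' hO' J' hr B0 n n' (fun e he => by rw [← hb]; exact hn e he) hB hB' 
      D hD D' hD'
  · have heq : D.fPoly = D'.fPoly := by
      rcases hns with h | h
      · exact h
      · by_contra hne
        exact h (key hne).2
    rcases lt_trichotomy (cutRank O' J') (cutRank O J) with h | h | h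
    · exact absurd heq (hO.pair_sp hsp O' hk' hO' J' h B0 n n' (fun e he => by rw [← hb]; exact hn e he) 
        hB hB' D hD D' hD')
    · exact h.symm
    · refine absurd heq.symm (hG.pair_sp hsp' O hO.pos hO.conn J h B0 n' n (fun e he => ?_) hB' hB 
        D' hD' D hD)
      have h1 := hn' e he
      rw [hb] at h1
      refine le_trans (le_of_eq ?_) h1
      rw [add_comm k' k]
      ring
  · exact hO.pair_odd O' hk' hO' J' hr m B0 n j n' j' hm hn hn' hj hj' D hD D' hD'

end Pool.Agent.Results.MP_31fd3b_gt.TwistRank
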