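import Pool.Agent.Q179.HS.Pair
import Pool.Agent.Q179.HS.Planar

/-!
# Two random diagrams on arbitrary shadows and Vassiliev invariants of order two

Definitions of the starting library: `GaussWord N` (the order in which the crossings of a knot diagram with
`N` crossings are passed; planarity is not required), `Crosses G i j` (the chords of the crossings `i` and `j`
cross), `fPoly G w` (the normalised Kauffman bracket of the diagram with shadow `G` and signs `w`), all in
`Pool.Agent.H832R2.JR.Defs`; `dia G e w` (`Pool.Agent.W642.RV.Defs`: the knot diagram with Gauss word `G`, local
pictures `e` of the crossings and signs `w` of the crossings); `Separated d X Y` (`Pool.Agent.H832R3.VJ.Defs`: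
some integer valued Vassiliev invariant of oriented links of order at most `d` has different values on `X` and
`Y`).  `PlaneCriterion G` (in `Pool.Agent.Q179.HS.Planar`): the combinatorial criterion for the Gauss words of
closed curves in the plane.

The starting result `RandomStackings` needs many disjoint pairs of crossing chords; here the shadows are
arbitrary.

Proof.  The second moment of the bracket (starting library), an invariant of order two, is a constant minus `12`
times the quadratic form `∑ w_i w_j` over the pairs of crossing chords.  It takes each value with probability at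
most `3/4`, and two independent random integers with this property coincide with probability at most
`(3/4)^2 + (1/4)^2 = 5/8`.  If there are no `n/4` disjoint crossing pairs, then for given signs of the chords of a
maximal set of such pairs the form is linear in the signs of the other chords; the proportion of the vanishing
coefficients is larger than `1 - δ` with probability at most `1/2 + δ` only, and otherwise the
Littlewood-Offord inequality applies.  If there are `n/4` disjoint pairs, the quadratic version of this
inequality (starting library) applies.
-/

set_option autoImplicit false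

namespace Pool.Agent.Results.MP_31fd3b_gt.TwoRandomDiagrams

open LaurentPolynomial Pool.Agent.H832R2.JR Pool.Agent.H832R3.VJ Pool.Agent.W642.RV Pool.Agent.Q179.HS

/-- * Let `G`, `G'` be the shadows (with local pictures `e`, `e'`) of two knot diagrams, each with at least one pair
  of crossing chords; `G = G'` is allowed. If the crossings of both are chosen independently at random, the
  two knots are separated by Vassiliev invariants of order at most `2` with probability at least `3/8`.
* If at least `n ≥ 1` chords of `G` and at least `n` chords of `G'` cross some other chord (`n = N` for shadows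
  without nugatory crossings), this probability is at least `3/4 - 16 n^(-1/4)`.
* If at least `n ≥ 1` chords of `G` cross some other chord, at least `n^(1/4)/8 - 1` of the diagrams with shadow `G`
  are pairwise separated by Vassiliev invariants of order at most `2`.
* For every `n` there is a shadow with `n + 2` crossings, for odd `n` satisfying the criterion for Gauss words of
  plane curves, every chord crossing another one, such that for a quarter of the pairs of choices of the
  crossings at least both diagrams have the normalised bracket `1`. -/
theorem result :
    (∀ (N N' : ℕ) (G : GaussWord N) (G' : GaussWord N') (e : Fin N → Bool) (e' : Fin N' → Bool),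
      (∃ i j, Crosses G i j) → (∃ i j, Crosses G' i j) →
      8 * Nat.card {W : (Fin N → Bool) × (Fin N' → Bool) //
        ¬ Separated 2 (dia G e W.1) (dia G' e' W.2)} ≤ 5 * 2 ^ (N + N')) ∧
    (∀ (N N' : ℕ) (G : GaussWord N) (G' : GaussWord N') (e : Fin N → Bool) (e' : Fin N' → Bool)
      (n : ℕ), 0 < n → n ≤ Nat.card {i : Fin N // ∃ j, Crosses G i j} →
      n ≤ Nat.card {i : Fin N' // ∃ j, Crosses G' i j} →
      (Nat.card {W : (Fin N → Bool) × (Fin N' → Bool) //
        ¬ Separated 2 (dia G e W.1) (dia G' e' W.2)} : ℝ) ≤
          (1 / 4 + 16 * (n : ℝ) ^ (-(1 / 4 : ℝ))) * 2 ^ (N + N')) ∧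
    (∀ (N : ℕ) (G : GaussWord N) (e : Fin N → Bool) (n : ℕ), 0 < n →
      n ≤ Nat.card {i : Fin N // ∃ j, Crosses G i j} →
      ∃ T : Finset (Fin N → Bool), (n : ℝ) ^ (1 / 4 : ℝ) / 8 - 1 ≤ T.card ∧
        ∀ w ∈ T, ∀ w' ∈ T, w ≠ w' → Separated 2 (dia G e w) (dia G e w')) ∧
    (∀ n : ℕ, ∃ G : GaussWord (n + 2), (Odd n → PlaneCriterion G) ∧ (∀ i, ∃ j, Crosses G i j) ∧
      2 ^ (2 * (n + 2)) ≤ 4 * Nat.card {W : (Fin (n + 2) → Bool) × (Fin (n + 2) → Bool) //
        fPoly G W.1 = 1 ∧ fPoly G W.2 = 1}) :=
  ⟨fun _ _ G G' e e' h h' => pair_three_eighths G G' e e' h h',
    fun _ _ G G' e e' n hn0 hn hn' => pair_three_quarters G G' e e' n hn0 hn hn',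
    fun _ G e n hn0 hn => many_types G e n hn0 hn,
    fun n => ⟨twWord n, tw_plane n, tw_all n, tw_pairs n⟩⟩

end Pool.Agent.Results.MP_31fd3b_gt.TwoRandomDiagrams
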